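import Pool.Agent.W2helper17.FM.F

/-!
# The fourth moment of the Benjamini–Schramm limits of eigenfunctions (MP_4fa179_mp)

Every Benjamini–Schramm limit of Laplace eigenfunctions of a compact Riemannian manifold of
dimension `d`, rescaled to eigenvalue `1`, is a translation invariant law on the space of smooth
solutions of `Δf + f = 0` on `ℝ^d`. The theorem is about all such laws, for all `d ≥ 1`, with
`∫ f(0)⁴ dμ < ∞`. Let `m` be the local mass, the conditional expectation of `f(0)²` given the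
translation invariant sets. Then `∫ f(0)⁴ ≥ 3/2 ∫ m²`, with a quantitative remainder, and equality
holds exactly for random plane waves `a cos (⟨w, x⟩ + φ)`. For the random wave of Berry's conjecture
`∫ f(0)⁴ = 3`, `m = 1`.

Idea of the proof. Let `Q_j = |∇^j f|²`, so that `Q_j ≥ 0` and `Q_{j+1} = (1 + Δ/2) Q_j`. Put
`U_j = Q_j - m` and `p_{i+j} = E U_i U_j`. Then `p_{2i+2}² ≤ p_{2i} p_{2i+4}`,
`p_{2i+2} + p_{2i+3} ≤ p_{2i} + p_{2i+1}` (this is `E |∇(U_i + U_{i+1})|² ≥ 0`), and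
`p_n = E f(0)² Q_n - E m² ≥ - E m²`. So the even terms are bounded and log-convex, whence
`p_2 ≤ p_0`, which is all that is needed.
-/

set_option autoImplicit false
open MeasureTheory Filter Topology
open scoped ContDiff ENNReal

namespace Pool.Agent.Results.MP_4fa179_mp.FourthMomentPlaneWaves

noncomputable section

/-- the Laplacian `∑ ∂_i²` of `ℝ^d` -/
def laplacian {d : ℕ} (f : EuclideanSpace ℝ (Fin d) → ℝ) (y : EuclideanSpace ℝ (Fin d)) : ℝ :=
  ∑ i, fderiv ℝ (fun z => fderiv ℝ f z (EuclideanSpace.single i 1)) y (EuclideanSpace.single i 1)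

/-- The space of all smooth `f` on `ℝ^d` with `Δf = -f`. Its σ-algebra is generated by the
evaluations `f ↦ f y`. -/
abbrev Wave (d : ℕ) : Type :=
  {f : EuclideanSpace ℝ (Fin d) → ℝ // ContDiff ℝ ∞ f ∧ ∀ y, laplacian f y = -f y}

/-- the translate `y ↦ f (y + x)` -/
def translate {d : ℕ} (x : EuclideanSpace ℝ (Fin d)) (f : Wave d) : Wave d :=
  ⟨fun y => f.1 (y + x), (Pool.Agent.Y139.SW.sh x f).2⟩

/-- the σ-algebra of the translation invariant measurable sets -/
@[reducible] def invariantSets (d : ℕ) : MeasurableSpace (Wave d) where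
  MeasurableSet' A := MeasurableSet A ∧ ∀ x, translate x ⁻¹' A = A
  measurableSet_empty := ⟨MeasurableSet.empty, fun _ => Set.preimage_empty⟩
  measurableSet_compl A hA := ⟨hA.1.compl, fun x => by rw [Set.preimage_compl, hA.2 x]⟩
  measurableSet_iUnion A hA := ⟨MeasurableSet.iUnion fun i => (hA i).1, fun x => by
    rw [Set.preimage_iUnion]
    exact Set.iUnion_congr fun i => (hA i).2 x⟩

/-- the value at the origin -/
def val {d : ℕ} (f : Wave d) : ℝ := f.1 0

/-- `|∇f(0)|²` -/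
def gradSq {d : ℕ} (f : Wave d) : ℝ := ∑ i, fderiv ℝ f.1 0 (EuclideanSpace.single i 1) ^ 2

/-- the local mass: the conditional expectation of `f(0)²` given the translation invariant sets -/
def mass {d : ℕ} (μ : Measure (Wave d)) : Wave d → ℝ := μ[fun f => val f ^ 2 | invariantSets d]

/-- the expectation of `g` -/
def ex {d : ℕ} (μ : Measure (Wave d)) (g : Wave d → ℝ) : ℝ := ∫ f, g f ∂μ

/-- `f` is a plane wave `a cos (⟨w, y⟩ + φ)` with `|w| = 1` -/
def IsPlaneWave {d : ℕ} (a : ℝ) (f : Wave d) : Prop :=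
  ∃ (w : EuclideanSpace ℝ (Fin d)) (φ : ℝ), ‖w‖ = 1 ∧
    ∀ y, f.1 y = a * Real.cos (inner ℝ w y + φ)

/-- **The fourth moment of stationary waves in `ℝ^d`.** -/
theorem result {d : ℕ} (hd : 1 ≤ d) (μ : Measure (Wave d)) [hP : IsProbabilityMeasure μ]
    (hμ : ∀ x, μ.map (translate x) = μ) (h4 : Integrable (fun f => val f ^ 4) μ) :
    (Integrable (fun f => mass μ f ^ 2) μ ∧ Integrable (fun f => gradSq f ^ 2) μ) ∧
    ex μ (fun f => (val f ^ 2 + gradSq f - 2 * mass μ f) ^ 2) ≤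
      8 / 3 * (ex μ (fun f => val f ^ 4) - 3 / 2 * ex μ (fun f => mass μ f ^ 2)) ∧
    ex μ (fun f => val f ^ 2) ^ 2 ≤ ex μ (fun f => mass μ f ^ 2) ∧
    ex μ (fun f => (gradSq f - mass μ f) ^ 2) ≤ ex μ (fun f => (val f ^ 2 - mass μ f) ^ 2) ∧
    (ex μ (fun f => val f ^ 4) = 3 / 2 * ex μ (fun f => mass μ f ^ 2) ↔
      ∀ᵐ f ∂μ, ∃ a, IsPlaneWave a f) ∧
    (ex μ (fun f => val f ^ 4) = 3 / 2 * ex μ (fun f => val f ^ 2) ^ 2 ↔
      ∀ᵐ f ∂μ, IsPlaneWave (√(2 * ex μ (fun f => val f ^ 2))) f) := by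
  exact Pool.Agent.W2helper17.FM.final hd μ hP hμ h4

end

end Pool.Agent.Results.MP_4fa179_mp.FourthMomentPlaneWaves
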