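import Pool.Agent.W2helper36.KT.Stage

set_option autoImplicit false

/-!
# MP_5168f5: Kakeya maximal estimates for skew products and towers of families of lines

Work in `ℝ^{d+1} = ℝ^d × ℝ` (`Space d`), `n = d + 1`.  For `v` in the closed unit ball of `ℝ^d` the
line number `v` of the family given by `b : ℝ^d → ℝ^d` is `{(b v + s v, s) : s ∈ ℝ}`; its direction
is `(v, 1)`.  `lineMax δ b f v` is the supremum of the averages of `|f|` over the `δ`-tubes of length
one with axis on the line number `v`.  By measurable selection the Kakeya maximal conjecture is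
the estimate `Bound δ univ 1 n (C δ^(-ε)) B b` below for *all* measurable `b`.

A family of lines of `ℝ^{d1+d2+1}` is a *skew product* if, for an orthogonal splitting
`ℝ^d = ℝ^{d1} × ℝ^{d2}`, the first component of `b(v1, v2)` is `b1(v1)` and the second one is
`b2(v1)(v2)`; the dependence of the family `b2(v1)` on `v1` is completely arbitrary (measurable).

1. *Composition theorem.*  If the family `b1` satisfies the maximal estimate in `L^p1` and all
   the families `b2(v1)` satisfy it in `L^p2`, then the skew product satisfies it in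
   `L^(p1 + p2 - 1)`, with the product of the constants (up to a constant that depends on the
   dimensions and exponents only).  So `p - 1` and `n - 1` are additive: critical exponents go to
   critical exponents, and sharp powers of `δ` to sharp powers of `δ`.
2. *Towers.*  The families that are built by skew products and countable decompositions (with
   summable multiplicities) from the following stages satisfy the estimate with the sharp power
   `δ^(-(n-p))` for the exponent `p` with `p - 1 = ∑ (p_i - 1)`: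
   arbitrary measurable families of `ℝ²` (`p_i = 2`); arbitrary measurable families of `ℝ^{d+1}`,
   `d ≥ 2`, with any `p_i < (d+3)/2` (or `p_i < 1 + 25 d / 42`, `d ≥ 9`); families with at most `M`
   lines through almost every point, given by a map that is Lipschitz on countably many pieces;
   section-monotone families; smooth families; and all families that satisfy the estimate with some
   exponent `p_i ≤ d + 1`.
3. *Rough towers*, without the smooth and the hypothetical stages: logarithmic loss at `p = n`.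
-/

open MeasureTheory Set ENNReal NNReal Metric

namespace Pool.Agent.Results.MP_5168f5_an.SkewProducts

/-- Euclidean space `ℝ^d`. -/
abbrev Vec (d : ℕ) : Type := EuclideanSpace ℝ (Fin d)

/-- Euclidean space `ℝ^{d+1}`, written as `ℝ^d × ℝ` with the Euclidean norm. -/
abbrev Space (d : ℕ) : Type := WithLp 2 (Vec d × ℝ)

/-- The closed tube of length `1` and radius `δ` with centre `a` and axis direction `e`. -/
def tube {d : ℕ} (δ : ℝ) (e a : Space d) : Set (Space d) :=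
  {y | |inner ℝ (y - a) e| ≤ 1 / 2 ∧ ‖(y - a) - (inner ℝ (y - a) e : ℝ) • e‖ ≤ δ}

/-- The unit vector `(v, 1)/√(1+|v|²)`. -/
noncomputable def dir {d : ℕ} (v : Vec d) : Space d :=
  (√(1 + ‖v‖ ^ 2))⁻¹ • WithLp.toLp 2 (v, (1:ℝ))

/-- The point of height `s` on the line `{(b v + s v, s)}`. -/
noncomputable def linePt {d : ℕ} (b : Vec d → Vec d) (v : Vec d) (s : ℝ) : Space d :=
  WithLp.toLp 2 (b v + s • v, s)

/-- Supremum of the averages of `|f|` over the `δ`-tubes with axis on the line number `v`. -/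
noncomputable def lineMax {d : ℕ} (δ : ℝ) (b : Vec d → Vec d) (f : Space d → ℝ) (v : Vec d) : ℝ≥0∞ :=
  ⨆ s : ℝ, (volume (tube δ (dir v) (linePt b v s)))⁻¹ *
    ∫⁻ y in tube δ (dir v) (linePt b v s), ‖f y‖ₑ

/-- `f` vanishes at the heights outside `T`. -/
def VanishesOff {d : ℕ} (T : Set ℝ) (f : Space d → ℝ) : Prop :=
  ∀ (y : Vec d) (t : ℝ), t ∉ T → f (WithLp.toLp 2 (y, t)) = 0

/-- Maximal estimate for the family `b`, the directions in `B` and the width `δ`:
`∫_B (M f)^(l p) ≤ C (∫ |f|^p)^l` for the functions living at heights in `T`.  (`l = 1`: from `L^p`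
to `L^p`; `l > 1`: from `L^p` to `L^(l p)`.) -/
def Bound {d : ℕ} (δ : ℝ) (T : Set ℝ) (l p C : ℝ) (B : Set (Vec d)) (b : Vec d → Vec d) : Prop :=
  ∀ f : Space d → ℝ, Measurable f → VanishesOff T f →
    ∫⁻ v in B, lineMax δ b f v ^ (l * p) ≤ ENNReal.ofReal C * (∫⁻ y, ‖f y‖ₑ ^ p) ^ l

/-- The Kakeya maximal estimate with the exponent `p` and the sharp loss `δ^(-(d+1-p))`, up to
`δ^(-ε)`, with the constants `C ε`. -/
def Maximal {d : ℕ} (T : Set ℝ) (p : ℝ) (C : ℝ → ℝ≥0∞) (B : Set (Vec d)) (b : Vec d → Vec d) : Prop :=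
  ∀ ε : ℝ, 0 < ε → ∀ δ : ℝ, 0 < δ → δ < 1 → ∀ f : Space d → ℝ, Measurable f → VanishesOff T f →
    ∫⁻ v in B, lineMax δ b f v ^ p
      ≤ C ε * ENNReal.ofReal (δ ^ (-((d : ℝ) + 1 - p) - ε)) * ∫⁻ y, ‖f y‖ₑ ^ p

/-- Up to a null set, `B` is covered by countably many measurable sets on which `b` is Lipschitz. -/
def LipPieces {d : ℕ} (B : Set (Vec d)) (b : Vec d → Vec d) : Prop :=
  ∃ P : ℕ → Set (Vec d), (∀ k, MeasurableSet (P k)) ∧ volume (B \ ⋃ k, P k) = 0 ∧
    ∀ k, ∃ C : ℝ≥0, LipschitzOnWith C b (P k)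

/-- For almost every height `t ∈ T`, almost every point of height `t` lies on at most `M` of the
lines with direction in `B`. -/
def OverlapLE {d : ℕ} (M : ℕ) (T : Set ℝ) (B : Set (Vec d)) (b : Vec d → Vec d) : Prop :=
  ∀ᵐ t : ℝ, t ∈ T → ∀ᵐ y : Vec d, {v | v ∈ B ∧ b v + t • v = y}.encard ≤ M

/-- For almost every height `t ∈ T` the section map `v ↦ b v + t v` becomes monotone on `B` after
composition with an invertible linear map `K` (which may depend on `t`). -/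
def SectionMonotone {d : ℕ} (T : Set ℝ) (B : Set (Vec d)) (b : Vec d → Vec d) : Prop :=
  ∀ᵐ t : ℝ, t ∈ T → ∃ K : Vec d →L[ℝ] Vec d, K.det ≠ 0 ∧
    ∀ v ∈ B, ∀ w ∈ B, 0 ≤ inner ℝ (K ((b v + t • v) - (b w + t • w))) (v - w)

/-- The polynomial map `ℝ^d → ℝ^d` with components `P i`. -/
noncomputable def polyMap {d : ℕ} (P : Fin d → MvPolynomial (Fin d) ℝ) (v : Vec d) : Vec d :=
  WithLp.toLp 2 (fun i => MvPolynomial.eval (fun j => v j) (P i))

/-- `b` is of class `C^k` on `B` in the sense of Taylor approximation, with constant `A`: at every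
`v₀ ∈ B` there is a polynomial map of degree `< k` with `|b v - P v| ≤ A |v - v₀|^k` on `B`. -/
def TaylorClass {d : ℕ} (k : ℕ) (A : ℝ) (B : Set (Vec d)) (b : Vec d → Vec d) : Prop :=
  ∀ v₀ ∈ B, ∃ P : Fin d → MvPolynomial (Fin d) ℝ, (∀ i, (P i).totalDegree < k) ∧
    ∀ v ∈ B, ‖b v - polyMap P v‖ ≤ A * ‖v - v₀‖ ^ k

/-- Exponents `q d` in the known ranges for the arbitrary families of lines of `ℝ^{d+1}`, `d ≥ 2`. -/
def Admissible (q : ℕ → ℝ) : Prop :=
  ∀ d : ℕ, 2 ≤ d → 1 < q d ∧ (q d < ((d : ℝ) + 3) / 2 ∨ (9 ≤ d ∧ q d < 1 + 25 / 42 * (d : ℝ)))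

/-- The rough stages, with their exponents and multiplicities: arbitrary families of lines in the
plane; families with at most `M` lines through almost every point, given by a map that is Lipschitz
on countably many pieces; section-monotone families. -/
inductive Rough (T : Set ℝ) : (d : ℕ) → ℝ → ℝ≥0 → Set (Vec d) → (Vec d → Vec d) → Prop
  | planar {B : Set (Vec 1)} {b : Vec 1 → Vec 1} : Rough T 1 2 1 B b
  | overlap {d M : ℕ} {B : Set (Vec d)} {b : Vec d → Vec d} (hM : 1 ≤ M)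
      (hL : LipPieces B b) (hO : OverlapLE M T B b) : Rough T d (d + 1) M B b
  | monotone {d : ℕ} {B : Set (Vec d)} {b : Vec d → Vec d} (hS : SectionMonotone T B b) :
      Rough T d (d + 1) 1 B b

/-- All the stages: the rough ones; arbitrary families of lines of `ℝ^{d+1}`, `d ≥ 2`, with the
exponent `q d`; families with the Taylor constants `A k` of order `k`, `k ≥ 1`; all the families
that satisfy the estimate `Maximal` with an exponent `p ≤ d + 1` and the constants `c ε d * M`. -/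
inductive Stage (T : Set ℝ) (A q : ℕ → ℝ) (c : ℝ → ℕ → ℝ≥0) :
    (d : ℕ) → ℝ → ℝ≥0 → Set (Vec d) → (Vec d → Vec d) → Prop
  | rough {d : ℕ} {p : ℝ} {M : ℝ≥0} {B : Set (Vec d)} {b : Vec d → Vec d} (h : Rough T d p M B b) :
      Stage T A q c d p M B b
  | arbitrary {d : ℕ} {B : Set (Vec d)} {b : Vec d → Vec d} (hd : 2 ≤ d) :
      Stage T A q c d (q d) 1 B b
  | taylor {d : ℕ} {B : Set (Vec d)} {b : Vec d → Vec d} (h : ∀ k, 1 ≤ k → TaylorClass k (A k) B b) :
      Stage T A q c d (d + 1) 1 B b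
  | maximal {d : ℕ} {p : ℝ} {M : ℝ≥0} {B : Set (Vec d)} {b : Vec d → Vec d} (hp : 1 ≤ p)
      (hpd : p ≤ d + 1) (h : Maximal T p (fun ε => c ε d * M) B b) : Stage T A q c d p M B b

/-- The two components of the vector `v` in the orthogonal splitting `Φ`. -/
noncomputable def split {d d1 d2 : ℕ} (Φ : Vec d ≃ₗᵢ[ℝ] WithLp 2 (Vec d1 × Vec d2)) (v : Vec d) :
    Vec d1 × Vec d2 := WithLp.ofLp (Φ v)

/-- The family `b` on `B` is the skew product of the family `b1` on `B1` and of the families `b2 v` on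
`B2 v`, `v ∈ B1`, for the orthogonal splitting `Φ` of `ℝ^d`; all the data are measurable. -/
def IsSkew {d d1 d2 : ℕ} (Φ : Vec d ≃ₗᵢ[ℝ] WithLp 2 (Vec d1 × Vec d2)) (B : Set (Vec d))
    (B1 : Set (Vec d1)) (B2 : Vec d1 → Set (Vec d2)) (b : Vec d → Vec d) (b1 : Vec d1 → Vec d1)
    (b2 : Vec d1 → Vec d2 → Vec d2) : Prop :=
  MeasurableSet {z : Vec d1 × Vec d2 | z.1 ∈ B1 ∧ z.2 ∈ B2 z.1} ∧
    Measurable (Function.uncurry b2) ∧ MeasurableSet B ∧ B ⊆ closedBall 0 1 ∧ Measurable b ∧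
    ∀ v ∈ B, (split Φ v).1 ∈ B1 ∧ (split Φ v).2 ∈ B2 (split Φ v).1 ∧
      split Φ (b v) = (b1 (split Φ v).1, b2 (split Φ v).1 (split Φ v).2)

/-- Towers over a class `𝒮` of stages: `p` is the exponent, `M` the multiplicity and `B` the set of
directions. -/
inductive Tower (𝒮 : (d : ℕ) → ℝ → ℝ≥0 → Set (Vec d) → (Vec d → Vec d) → Prop) :
    (d : ℕ) → ℝ → ℝ≥0 → Set (Vec d) → (Vec d → Vec d) → Prop
  | stage {d : ℕ} {p : ℝ} {M : ℝ≥0} {B : Set (Vec d)} {b : Vec d → Vec d} (hd : 1 ≤ d)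
      (hB : MeasurableSet B) (hB1 : B ⊆ closedBall 0 1) (hb : Measurable b) (h : 𝒮 d p M B b) :
      Tower 𝒮 d p M B b
  | pieces {d : ℕ} {p : ℝ} {M : ℝ≥0} {b : Vec d → Vec d} (m : ℕ → ℝ≥0) (B : ℕ → Set (Vec d))
      (h : ∀ j, Tower 𝒮 d p (m j) (B j) b) (hM : ∑' j, (m j : ℝ≥0∞) ≤ M) :
      Tower 𝒮 d p M (⋃ j, B j) b
  | skew {d d1 d2 : ℕ} {p1 p2 : ℝ} {M1 M2 : ℝ≥0} {B : Set (Vec d)} {B1 : Set (Vec d1)}
      {B2 : Vec d1 → Set (Vec d2)} {b : Vec d → Vec d} {b1 : Vec d1 → Vec d1}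
      {b2 : Vec d1 → Vec d2 → Vec d2} (Φ : Vec d ≃ₗᵢ[ℝ] WithLp 2 (Vec d1 × Vec d2))
      (hd1 : 1 ≤ d1) (hd2 : 1 ≤ d2) (hM2 : 0 < M2)
      (h1 : Tower 𝒮 d1 p1 M1 B1 b1) (h2 : ∀ v ∈ B1, Tower 𝒮 d2 p2 M2 (B2 v) (b2 v))
      (hs : IsSkew Φ B B1 B2 b b1 b2) : Tower 𝒮 d (p1 + p2 - 1) (M1 * M2) B b

open Pool.Agent.TH426.Kt (KTower RegBase BaseBd AllB LMb VanOff Pw win spl)
open Pool.Agent.W2helper36.KT (GenB mu)

theorem toK {𝒮 𝓑 : (d : ℕ) → ℝ → ℝ≥0 → Set (Vec d) → (Vec d → Vec d) → Prop}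
    (h0 : ∀ {d : ℕ} {p : ℝ} {M : ℝ≥0} {B : Set (Vec d)} {b : Vec d → Vec d}, 1 ≤ d →
      MeasurableSet B → B ⊆ closedBall 0 1 → Measurable b → 𝒮 d p M B b → 𝓑 d p M B b)
    {d : ℕ} {p : ℝ} {M : ℝ≥0} {B : Set (Vec d)} {b : Vec d → Vec d} (h : Tower 𝒮 d p M B b) :
    KTower 𝓑 d p M B b := by
  induction h with
  | stage hd hB hB1 hb h => exact KTower.base (h0 hd hB hB1 hb h)
  | pieces m B h hM ih => exact KTower.union m B ih hM
  | @skew d d1 d2 p1 p2 M1 M2 B B1 B2 b b1 b2 Φ hd1 hd2 hM2 h1 h2 hs ih1 ih2 =>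
    obtain ⟨hB2, hb2, hB, hB1, hb, hbB⟩ := hs
    exact KTower.skew Φ hd1 hd2 hM2 ih1 ih2 hB2 hb2 hB hB1 hb hbB

theorem rough_to {T : Set ℝ} {d : ℕ} {p : ℝ} {M : ℝ≥0} {B : Set (Vec d)} {b : Vec d → Vec d}
    (hd : 1 ≤ d) (hB : MeasurableSet B) (hB1 : B ⊆ closedBall 0 1) (hb : Measurable b)
    (h : Rough T d p M B b) : Pool.Agent.TH426.Kt.Rough T d p M B b := by
  cases h with
  | planar =>
    have := Pool.Agent.TH426.Kt.Rough.planar (T := T) hB hB1 hb
    have e : (((1 : ℕ) : ℝ) + 1) = 2 := by norm_num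
    rw [e] at this
    exact this
  | overlap hM hL hO => exact Pool.Agent.TH426.Kt.Rough.overlap hd hM hB hB1 hb hL hO
  | monotone hS => exact Pool.Agent.TH426.Kt.Rough.monotone hd hB hB1 hb hS

theorem stage_to {T : Set ℝ} {A q : ℕ → ℝ} {c : ℝ → ℕ → ℝ≥0} {d : ℕ} {p : ℝ} {M : ℝ≥0}
    {B : Set (Vec d)} {b : Vec d → Vec d} (hd : 1 ≤ d) (hB : MeasurableSet B)
    (hB1 : B ⊆ closedBall 0 1) (hb : Measurable b) (h : Stage T A q c d p M B b) :
    GenB T A q c d p M B b := by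
  cases h with
  | rough h => exact Or.inl (AllB.rough (rough_to hd hB hB1 hb h))
  | arbitrary hd2 => exact Or.inr (Or.inl ⟨rfl, hd2, rfl, hB, hB1, hb⟩)
  | taylor h => exact Or.inl (AllB.smooth hd hB hB1 hb h)
  | maximal hp hpd h => exact Or.inr (Or.inr ⟨hp, hpd, hd, hB, hB1, hb, h⟩)

/-- **Kakeya maximal estimates for skew products and towers of families of lines.** -/
theorem result :
    -- 1. the composition theorem
    (∀ (d1 d2 : ℕ) (l p1 p2 : ℝ), 1 ≤ l → 1 ≤ p1 → 1 ≤ p2 → ∃ K : ℝ, 0 < K ∧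
      ∀ (d : ℕ) (Φ : Vec d ≃ₗᵢ[ℝ] WithLp 2 (Vec d1 × Vec d2)) (δ : ℝ) (T : Set ℝ) (C1 C2 : ℝ)
        (B : Set (Vec d)) (B1 : Set (Vec d1)) (B2 : Vec d1 → Set (Vec d2)) (b b' : Vec d → Vec d)
        (b1 : Vec d1 → Vec d1) (b2 : Vec d1 → Vec d2 → Vec d2),
        0 < δ → δ < 1 → MeasurableSet T → 0 < C1 → 0 < C2 →
        MeasurableSet B1 → B1 ⊆ closedBall 0 1 → (∀ v ∈ B1, B2 v ⊆ closedBall 0 1) →
        Measurable b1 → IsSkew Φ B B1 B2 b b1 b2 → (∀ v ∈ B, ‖b' v - b v‖ ≤ δ) →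
        Bound δ T l p1 C1 B1 b1 → (∀ v ∈ B1, Bound δ T l p2 C2 (B2 v) (b2 v)) →
        Bound δ T l (p1 + p2 - 1) (K * (C1 * C2)) B b') ∧
    -- 2. towers
    (∀ (d : ℕ) (ε : ℝ) (A q : ℕ → ℝ) (c : ℝ → ℕ → ℝ≥0), 0 < ε → Admissible q → ∃ C : ℝ, 0 < C ∧
      ∀ (T : Set ℝ) (p : ℝ) (M : ℝ≥0) (B : Set (Vec d)) (b b' : Vec d → Vec d) (δ : ℝ),
        MeasurableSet T → Tower (Stage T A q c) d p M B b → 0 < δ → δ < 1 →
        (∀ v ∈ B, ‖b' v - b v‖ ≤ δ) →
        Bound δ T 1 p (C * M * δ ^ (-((d : ℝ) + 1 - p) - ε)) B b') ∧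
    -- 3. rough towers
    (∀ d : ℕ, ∃ C : ℝ, 0 < C ∧
      ∀ (T : Set ℝ) (p : ℝ) (M : ℝ≥0) (B : Set (Vec d)) (b b' : Vec d → Vec d) (δ : ℝ),
        MeasurableSet T → Tower (Rough T) d p M B b → 0 < δ → δ < 1 →
        (∀ v ∈ B, ‖b' v - b v‖ ≤ δ) →
        Bound δ T 1 p (C * M * (1 + Real.log (1 / δ)) ^ d) B b') := by
  refine ⟨?_, ?_, ?_⟩
  · intro d1 d2 l p1 p2 hl hp1 hp2
    have hKt := Pool.Agent.TH426.Kt.Kc_ne_top d1 d2 (by linarith : 0 ≤ l) hp1 hp2
    refine ⟨(Pool.Agent.TH426.Kt.Kc d1 d2 l p1 p2).toReal + 1, by positivity, ?_⟩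
    intro d Φ δ T C1 C2 B B1 B2 b b' b1 b2 hδ hδ1 hT hC1 hC2 hB1 hB1' hB2' hb1 hs hbb h1 h2
    obtain ⟨hB2, hb2, hB, hBc, hb, hbB⟩ := hs
    have key := Pool.Agent.TH426.Kt.composition Φ hδ hδ1 hT hl hp1 hp2
      (C1 := ENNReal.ofReal C1) (C2 := ENNReal.ofReal C2) (by simpa using hC2)
      ENNReal.ofReal_ne_top hB1 hB1' hB2 hB2' hB hBc hb hb1 hb2 hbB hbb h1 h2
    intro f hf hfT
    refine (key f hf hfT).trans (mul_le_mul_left ?_ _)
    rw [ENNReal.ofReal_mul (by positivity), ENNReal.ofReal_mul hC1.le]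
    gcongr
    rw [ENNReal.ofReal_add ENNReal.toReal_nonneg zero_le_one, ENNReal.ofReal_toReal hKt]
    exact le_self_add
  · intro d ε A q c hε hq
    obtain ⟨c', hc', hbd⟩ := Pool.Agent.W2helper36.KT.genB_bd A hq c (ε / (d + 1)) (by positivity)
    set Q : ℝ≥0∞ := Pool.Agent.TH426.Kt.cb d ^ ((d : ℝ) + 1) *
      Pool.Agent.TH426.Kt.cc c' (Pool.Agent.TH426.Kt.KK 1) d with hQ
    have hQt : Q ≠ ∞ := by
      apply ENNReal.mul_ne_top
      · exact ENNReal.rpow_ne_top_of_nonneg (by positivity) (Pool.Agent.TH426.Kt.cb_ne_top d)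
      · exact Pool.Agent.TH426.Kt.cc_ne_top hc' (Pool.Agent.TH426.Kt.KK_ne_top zero_le_one) d
    refine ⟨Q.toReal + 1, by positivity, ?_⟩
    intro T p M B b b' δ hT h hδ hδ1 hbb
    rcases B.eq_empty_or_nonempty with hne | hne
    · rw [hne]
      intro f _ _
      simp
    have hreg := Pool.Agent.W2helper36.KT.genB_reg T A hq c
    have hK : KTower (GenB T A q c) d p M B b := toK stage_to h
    obtain ⟨hp1, hp2⟩ := hK.expo hreg hne
    have hε' : 0 < ε / ((d : ℝ) + 1) := by positivity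
    have hPw0 : Pw (ε / (d + 1)) δ ≠ 0 :=
      (lt_of_lt_of_le one_pos (Pool.Agent.TH426.Kt.one_le_Pw hε' hδ hδ1)).ne'
    have hmu0 : mu δ ≠ 0 :=
      (lt_of_lt_of_le one_pos (Pool.Agent.W2helper36.KT.one_le_mu hδ hδ1)).ne'
    have key := Pool.Agent.W2helper36.KT.tower_lmb_mu hreg hδ hδ1 hT hc' hPw0
      (Pool.Agent.TH426.Kt.Pw_ne_top _ _) hmu0 (Pool.Agent.W2helper36.KT.mu_ne_top δ)
      (fun k => hbd T δ k hT hδ hδ1) hK hbb
    intro f hf hfT
    refine (key f hf hfT).trans (mul_le_mul_left ?_ _)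
    rw [Pool.Agent.W2helper36.KT.mu_rpow hδ (by linarith)]
    have e1 : Pw (ε / (d + 1)) δ ^ d ≤ ENNReal.ofReal (δ ^ (-ε)) := by
      unfold Pw
      rw [← ENNReal.ofReal_pow (by positivity)]
      apply ENNReal.ofReal_le_ofReal
      rw [← Real.rpow_natCast, ← Real.rpow_mul hδ.le]
      apply Real.rpow_le_rpow_of_exponent_ge hδ hδ1.le
      rw [neg_mul, neg_le_neg_iff, div_mul_eq_mul_div, div_le_iff₀ (by positivity)]
      nlinarith
    calc Q * M * Pw (ε / (d + 1)) δ ^ d * ENNReal.ofReal (δ ^ (-((d : ℝ) + 1 - p)))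
        ≤ ENNReal.ofReal (Q.toReal + 1) * M * ENNReal.ofReal (δ ^ (-ε)) *
          ENNReal.ofReal (δ ^ (-((d : ℝ) + 1 - p))) := by
          gcongr
          rw [ENNReal.ofReal_add ENNReal.toReal_nonneg zero_le_one, ENNReal.ofReal_toReal hQt]
          exact le_self_add
      _ = ENNReal.ofReal ((Q.toReal + 1) * M * δ ^ (-((d : ℝ) + 1 - p) - ε)) := by
          have e2 : δ ^ (-((d : ℝ) + 1 - p) - ε) = δ ^ (-ε) * δ ^ (-((d : ℝ) + 1 - p)) := by
            rw [← Real.rpow_add hδ]; congr 1; ring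
          rw [e2, ENNReal.ofReal_mul (by positivity), ENNReal.ofReal_mul (by positivity),
            ENNReal.ofReal_mul (by positivity), ENNReal.ofReal_coe_nnreal]
          ring
  · intro d
    set Q : ℝ≥0∞ := Pool.Agent.TH426.Kt.cb d ^ ((d : ℝ) + 1) *
      Pool.Agent.TH426.Kt.cc Pool.Agent.TH426.Kt.c0 (Pool.Agent.TH426.Kt.KK 1) d with hQ
    have hQt : Q ≠ ∞ := by
      apply ENNReal.mul_ne_top
      · exact ENNReal.rpow_ne_top_of_nonneg (by positivity) (Pool.Agent.TH426.Kt.cb_ne_top d)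
      · exact Pool.Agent.TH426.Kt.cc_ne_top Pool.Agent.TH426.Kt.c0_ne_top
          (Pool.Agent.TH426.Kt.KK_ne_top zero_le_one) d
    refine ⟨Q.toReal + 1, by positivity, ?_⟩
    intro T p M B b b' δ hT h hδ hδ1 hbb
    have hK : KTower (Pool.Agent.TH426.Kt.Rough T) d p M B b := toK rough_to h
    have hlog : 0 ≤ Real.log (1 / δ) := Real.log_nonneg (by rw [le_div_iff₀ hδ]; linarith)
    have key := Pool.Agent.TH426.Kt.tower_lmb (Pool.Agent.TH426.Kt.rough_reg T) hδ hδ1 hT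
      Pool.Agent.TH426.Kt.c0_ne_top
      (lt_of_lt_of_le one_pos (Pool.Agent.TH426.Kt.one_le_Lg hδ hδ1)).ne'
      (Pool.Agent.TH426.Kt.Lg_ne_top δ)
      (fun k => Pool.Agent.TH426.Kt.rough_bd hT hδ hδ1 k) hK hbb
    intro f hf hfT
    refine (key f hf hfT).trans (mul_le_mul_left ?_ _)
    calc Q * M * Pool.Agent.TH426.Kt.Lg δ ^ d
        ≤ ENNReal.ofReal (Q.toReal + 1) * M * Pool.Agent.TH426.Kt.Lg δ ^ d := by
          gcongr
          rw [ENNReal.ofReal_add ENNReal.toReal_nonneg zero_le_one, ENNReal.ofReal_toReal hQt]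
          exact le_self_add
      _ = ENNReal.ofReal ((Q.toReal + 1) * M * (1 + Real.log (1 / δ)) ^ d) := by
          unfold Pool.Agent.TH426.Kt.Lg
          rw [ENNReal.ofReal_mul (by positivity), ENNReal.ofReal_mul (by positivity),
            ENNReal.ofReal_coe_nnreal, ENNReal.ofReal_pow (by positivity)]

end Pool.Agent.Results.MP_5168f5_an.SkewProducts
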